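import Mathlib

namespace Pool.Agent.H.MP_35e3b8_an

open Set NNReal CircleDeg1Lift

abbrev G : Type := CircleDeg1Liftˣ

def φ (g : G) : ℝ := g.1 0

theorem q (g h : G) : |φ g + φ h - φ (g * h)| < 1 := dist_map_map_zero_lt g.1 h.1

noncomputable def ψ (g : G) : ℝ := max |φ g| |φ g⁻¹|

theorem ψ0 (g : G) : 0 ≤ ψ g := le_max_of_le_left (abs_nonneg _)

theorem ψ_inv (g : G) : ψ g⁻¹ = ψ g := by rw [ψ, ψ, inv_inv, max_comm]

theorem φ_le (g : G) : |φ g| ≤ ψ g := le_max_left _ _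

theorem φ_mul (g h : G) : |φ (g * h)| ≤ ψ g + ψ h + 1 := by
  have := abs_lt.1 (q g h)
  have := abs_le.1 (φ_le g)
  have := abs_le.1 (φ_le h)
  rw [abs_le]; constructor <;> linarith

theorem ψ_mul (g h : G) : ψ (g * h) ≤ ψ g + ψ h + 1 :=
  max_le (φ_mul g h) (by rw [mul_inv_rev]; linarith [φ_mul h⁻¹ g⁻¹, ψ_inv g, ψ_inv h])

def M (_ : ℝ≥0) : Type := G

instance (N : ℝ≥0) : MulAction G (M N) := inferInstanceAs (MulAction G G)

def val {N : ℝ≥0} (x : M N) : G := x

open Classical in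
noncomputable instance (N : ℝ≥0) : MetricSpace (M N) where
  dist x y := if x = y then 0 else N + 1 + ψ ((val x)⁻¹ * val y)
  dist_self x := if_pos rfl
  dist_comm x y := by
    simp only [eq_comm (a := x), ← ψ_inv ((val x)⁻¹ * val y), mul_inv_rev, inv_inv]
  dist_triangle x y z := by
    have := ψ_mul ((val x)⁻¹ * val y) ((val y)⁻¹ * val z)
    rw [mul_assoc, mul_inv_cancel_left] at this
    have := ψ0 ((val x)⁻¹ * val y)
    have := ψ0 ((val y)⁻¹ * val z)
    have := N.2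
    split_ifs <;> first | linarith | (subst_vars; first | contradiction | linarith)
  eq_of_dist_eq_zero {x y} h := by
    by_contra hn
    simp only [if_neg hn] at h
    linarith [ψ0 ((val x)⁻¹ * val y), N.coe_nonneg]

theorem dist_ne {N : ℝ≥0} {x y : M N} (h : x ≠ y) : dist x y = N + 1 + ψ ((val x)⁻¹ * val y) :=
  if_neg h

theorem dist_le {N : ℝ≥0} (x y : M N) : dist x y ≤ N + 1 + ψ ((val x)⁻¹ * val y) := by
  rcases eq_or_ne x y with rfl | h
  · rw [dist_self]; linarith [ψ0 ((val x)⁻¹ * val x), N.coe_nonneg]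
  · exact (dist_ne h).le

instance (N : ℝ≥0) : IsIsometricSMul G (M N) := ⟨fun g => Isometry.of_dist_eq fun x y => by
  rcases eq_or_ne x y with rfl | h
  · simp
  · rw [dist_ne h, dist_ne fun e => h (MulAction.injective g e)]
    show _ + ψ ((g * val x)⁻¹ * (g * val y)) = _
    rw [mul_inv_rev, mul_assoc, inv_mul_cancel_left]⟩

def f {N : ℝ≥0} (x : M N) : ℝ := φ (val x)

def o (N : ℝ≥0) : M N := (1 : G)

theorem lip (N : ℝ≥0) : LipschitzWith 1 (f (N := N)) :=
  LipschitzWith.of_le_add fun x y => by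
    rcases eq_or_ne y x with rfl | h
    · simp
    · have := q (val y) ((val y)⁻¹ * val x)
      rw [mul_inv_cancel_left] at this
      rw [dist_comm, dist_ne h, f, f]
      linarith [(abs_lt.1 this).1, (abs_le.1 (φ_le ((val y)⁻¹ * val x))).2, N.coe_nonneg]

theorem inv_lip (ε : ℝ≥0) (hε : 0 < ε) (g : G) :
    LipschitzWith ε fun x : M (2 / ε) => f (g • x) - f (g • o (2 / ε)) - f x :=
  LipschitzWith.of_dist_le_mul fun x y => by
    rcases eq_or_ne x y with rfl | h
    · simp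
    · have h1 : |φ g + f x - f (g • x)| < 1 := q g (val x)
      have h2 : |φ g + f y - f (g • y)| < 1 := q g (val y)
      have h3 : (ε : ℝ) * (2 / ε : ℝ≥0) = 2 := by
        have : (ε : ℝ) ≠ 0 := by exact_mod_cast hε.ne'
        push_cast; field_simp
      have := mul_nonneg ε.coe_nonneg (ψ0 ((val x)⁻¹ * val y))
      rw [dist_ne h, Real.dist_eq, abs_le]
      rw [abs_lt] at h1 h2
      constructor <;> nlinarith [ε.coe_nonneg]

noncomputable def T (s : ℝ) : G := translate (Multiplicative.ofAdd s)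

theorem far {N K : ℝ≥0} (F : M N → ℝ) (h : LipschitzWith K F) (h0 : F (o N) = 0)
    (hT : ∀ n : ℕ, F (T (n * (1 / 4))) = n * (1 / 4)) : 1 ≤ K := by
  by_contra! hK
  have hK' : (0 : ℝ) < 1 - K := by rw [sub_pos]; exact_mod_cast hK
  obtain ⟨n, hn⟩ := exists_nat_gt (4 * (K * (N + 1)) / (1 - K) : ℝ)
  rw [div_lt_iff₀ hK'] at hn
  have h1 := (h.dist_le_mul (o N) (T (n * (1 / 4)))).trans
    (mul_le_mul_of_nonneg_left (dist_le _ _) K.coe_nonneg)
  have h2 : ψ ((val (o N))⁻¹ * val (N := N) (T (n * (1 / 4)))) = n * (1 / 4) := by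
    show ψ (1⁻¹ * T _) = _
    rw [inv_one, one_mul, ψ]
    show max |(n : ℝ) * (1 / 4) + 0| |-((n : ℝ) * (1 / 4)) + 0| = _
    rw [add_zero, add_zero, abs_neg, max_self, abs_of_nonneg (by positivity)]
  rw [h0, hT, h2, Real.dist_eq, zero_sub, abs_neg, abs_of_nonneg (by positivity)] at h1
  nlinarith

theorem lipu (x y : ℝ) : ‖(x : UnitAddCircle)‖ - ‖(y : UnitAddCircle)‖ ≤ |x - y| :=
  (norm_sub_norm_le _ _).trans (QuotientAddGroup.norm_mk_le_norm (m := x - y))

theorem smono : StrictMono fun x : ℝ => x + ‖(x : UnitAddCircle)‖ / 2 := fun x y h => by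
  have := lipu x y
  rw [abs_of_neg (sub_neg.2 h)] at this
  linarith

noncomputable def a0 : CircleDeg1Lift :=
  ⟨⟨_, smono.monotone⟩, fun x => by simp only [AddCircle.coe_add_period]; ring⟩

noncomputable def a : G := (isUnit_iff_bijective.2 ⟨smono.injective,
  a0.continuous_iff_surjective.1 (show Continuous fun x : ℝ => x + ‖(x : UnitAddCircle)‖ / 2 by
    fun_prop)⟩ : IsUnit a0).unit

theorem a_app (x : ℝ) : a.1 x = x + ‖(x : UnitAddCircle)‖ / 2 := rfl

theorem hom_zero {N K : ℝ≥0} (H : G → ℝ) (hm : ∀ g h, H (g * h) = H g + H h)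
    (hK : LipschitzWith K fun x : M N => f x - H (val x)) (n : ℕ) : H (T (n * (1 / 4))) = 0 := by
  have H1 : H 1 = 0 := by linarith [hm 1 1, congrArg H (mul_one 1)]
  have Hp : ∀ g (n : ℕ), H (g ^ n) = n * H g := fun g n => by
    induction n with
    | zero => simpa using H1
    | succ n ih => rw [pow_succ, hm, ih]; push_cast; ring
  have fix : ∀ g : G, φ g = 0 → H g = 0 := fun g hg => by
    have p : ∀ n : ℕ, φ (g ^ n) = 0 := fun n => by
      induction n with
      | zero => rfl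
      | succ n ih => rw [pow_succ]; exact (congrArg (g ^ n).1 hg).trans ih
    have p' : ∀ n : ℕ, φ (g ^ n)⁻¹ = 0 := fun n =>
      (congrArg (g ^ n)⁻¹.1 (p n)).symm.trans (units_inv_apply_apply _ _)
    by_contra h
    obtain ⟨n, hn⟩ := exists_nat_gt (K * (N + 1) / |H g| : ℝ)
    rw [div_lt_iff₀ (abs_pos.2 h)] at hn
    have h1 := (hK.dist_le_mul (o N) (g ^ n : G)).trans
      (mul_le_mul_of_nonneg_left (dist_le _ _) K.coe_nonneg)
    change dist (φ 1 - H 1) (φ (g ^ n) - H (g ^ n)) ≤ K * (N + 1 + ψ (1⁻¹ * g ^ n)) at h1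
    rw [inv_one, one_mul, ψ, p, p', H1, Hp, show φ 1 = 0 from rfl] at h1
    simp [abs_mul] at h1
    linarith
  have a1 : a.1 (1 / 2) = 1 / 4 + 1 / 2 := by
    rw [a_app, AddCircle.norm_half_period_eq]; norm_num
  have h1 := fix a (by rw [φ, a_app]; simp)
  have h2 := fix ((T (1 / 2))⁻¹ * (a⁻¹ * T (1 / 4) * T (1 / 2))) (by
    show -(1 / 2 : ℝ) + a⁻¹.1 (1 / 4 + (1 / 2 + 0)) = 0
    rw [add_zero, ← a1, units_inv_apply_apply, neg_add_cancel])
  have h3 := hm (T (1 / 2))⁻¹ (T (1 / 2))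
  have h4 := hm a⁻¹ a
  rw [inv_mul_cancel] at h3 h4
  rw [hm, hm, hm] at h2
  rw [T, ← translate_pow, Hp, show H (translate _) = 0 by change H (T _) = 0; linarith, mul_zero]

end Pool.Agent.H.MP_35e3b8_an
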